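import Pool.Agent.H454R3.Mono
import Pool.Agent.H454R3.EDeg

/-!
# Doubled co-d-CEA degrees are not the degrees of a Urysohn space

The doubled co-d-CEA degrees are the degrees of points of the countable power of a countable space
`E` with two origins. If all of them were degrees of points of one represented Urysohn space `Y`,
then this power would be covered by countably many subspaces which embed into `Y`. One of them is
dense, for the discrete topology on `E`, in some basic open set, and contains there two points which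
differ only by an exchange of the two origins. Inside this subspace these two points cannot be
separated by closed neighbourhoods.
-/

set_option autoImplicit false

namespace Pool.Agent.Results.MP_ab6b4f_lc.Urysohn

open Pool.Agent.H454R3.EDeg Pool.Agent.H454R3.Mono TopologicalSpace

universe u

/-! ### The definition used in the statement -/

/-- The e-degree of `S` is doubled co-d-CEA by the very form of `S`. -/
def IsDoubled (S : Set ℕ) : Prop :=
  ∃ X A B P N : Set ℕ, CEIn X P ∧ CEIn X N ∧ CEIn X (A ∪ B)ᶜ ∧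
    Disjoint A B ∧ Disjoint A P ∧ Disjoint A N ∧ Disjoint B P ∧ Disjoint B N ∧ Disjoint P N ∧
    S = join (join X Xᶜ) (join (A ∪ P) (B ∪ N))

/-! ### The countable space with two origins -/

/-- The points: the two origins, the points of the axis, and isolated points. -/
inductive Pt
  | o (b : Bool) : Pt
  | l (s : ℕ) : Pt
  | p (s t : ℕ) (b : Bool) : Pt

open Pt

instance : Countable Pt := by
  have h : Function.Injective fun x : Pt => (match x with
    | o b => Sum.inl b
    | l s => Sum.inr (Sum.inl s)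
    | p s t b => Sum.inr (Sum.inr (s, t, b)) : Bool ⊕ (ℕ ⊕ (ℕ × ℕ × Bool))) := by
    intro x y h
    cases x <;> cases y <;> simp_all
  exact h.countable

/-- The events revealed by a point. -/
def Ev : Pt → ℕ → Prop
  | o _, _ => False
  | l s, m => m = 3 * s
  | p s t b, m => m = 3 * s ∨ m = 3 * t + (bif b then 2 else 1)

/-- `w` is in the `m`-th neighbourhood of `x`. -/
def Near (m : ℕ) : Pt → Pt → Prop
  | o b, w => w = o b ∨ ∃ s t, w = p s t b ∧ m < s ∧ m < t
  | l s, w => w = l s ∨ ∃ t b, w = p s t b ∧ m < t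
  | p s t b, w => w = p s t b

theorem near_refl (m : ℕ) (x : Pt) : Near m x x := by
  cases x <;> simp [Near]

def XX (w : ℕ → Pt) : Set ℕ := {n | Ev (w n.unpair.1) n.unpair.2}
def AA (w : ℕ → Pt) : Set ℕ := {i | w i = o false}
def BB (w : ℕ → Pt) : Set ℕ := {i | w i = o true}
def PP (w : ℕ → Pt) : Set ℕ := {i | ∃ s t, w i = p s t false}
def NN (w : ℕ → Pt) : Set ℕ := {i | ∃ s t, w i = p s t true}

def code (w : ℕ → Pt) : Set ℕ := join (join (XX w) (XX w)ᶜ) (join (AA w ∪ PP w) (BB w ∪ NN w))

theorem isDoubled_code (w : ℕ → Pt) : IsDoubled (code w) := by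
  refine ⟨XX w, AA w, BB w, PP w, NN w, ?_, ?_, ?_, ?_, ?_, ?_, ?_, ?_, ?_, rfl⟩
  · refine ceIn_of_proj (q := fun i m => Nat.pair i (3 * m + 1)) ?_ ?_
    · show Computable fun z : ℕ × ℕ => Nat.pair z.1 (3 * z.2 + 1)
      fun_prop
    · intro i
      simp only [PP, XX, Set.mem_ofPred_eq, Nat.unpair_pair]
      constructor
      · rintro ⟨s, t, h⟩
        exact ⟨t, by rw [h]; simp [Ev]⟩
      · rintro ⟨m, hm⟩
        rcases hw : w i with b | s | ⟨s, t, b⟩
        · rw [hw] at hm; exact hm.elim
        · rw [hw] at hm; simp only [Ev] at hm; omega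
        · rw [hw] at hm
          simp only [Ev] at hm
          cases b
          · exact ⟨s, t, rfl⟩
          · simp only [cond_true] at hm; omega
  · refine ceIn_of_proj (q := fun i m => Nat.pair i (3 * m + 2)) ?_ ?_
    · show Computable fun z : ℕ × ℕ => Nat.pair z.1 (3 * z.2 + 2)
      fun_prop
    · intro i
      simp only [NN, XX, Set.mem_ofPred_eq, Nat.unpair_pair]
      constructor
      · rintro ⟨s, t, h⟩
        exact ⟨t, by rw [h]; simp [Ev]⟩
      · rintro ⟨m, hm⟩
        rcases hw : w i with b | s | ⟨s, t, b⟩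
        · rw [hw] at hm; exact hm.elim
        · rw [hw] at hm; simp only [Ev] at hm; omega
        · rw [hw] at hm
          simp only [Ev] at hm
          cases b
          · simp only [cond_false] at hm; omega
          · exact ⟨s, t, rfl⟩
  · refine ceIn_of_proj (q := fun i m => Nat.pair i (3 * m)) ?_ ?_
    · show Computable fun z : ℕ × ℕ => Nat.pair z.1 (3 * z.2)
      fun_prop
    · intro i
      simp only [AA, BB, XX, Set.mem_ofPred_eq, Nat.unpair_pair, Set.mem_compl_iff, Set.mem_union]
      constructor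
      · intro h
        rcases hw : w i with b | s | ⟨s, t, b⟩
        · rw [hw] at h; cases b <;> simp at h
        · exact ⟨s, by simp [Ev]⟩
        · exact ⟨s, by simp [Ev]⟩
      · rintro ⟨m, hm⟩ h
        rcases h with h | h <;> rw [h] at hm <;> exact hm
  all_goals
    rw [Set.disjoint_left]
    intro i h1 h2
    simp only [AA, BB, PP, NN, Set.mem_ofPred_eq] at h1 h2
  · rw [h1] at h2; simp at h2
  · rw [h1] at h2; simp at h2
  · rw [h1] at h2; simp at h2
  · rw [h1] at h2; simp at h2
  · rw [h1] at h2; simp at h2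
  · obtain ⟨s, t, h1⟩ := h1
    rw [h1] at h2; simp at h2

theorem code_near {x w : ℕ → Pt} {q m : ℕ} (hq : q ∈ code x) (hqm : q < m)
    (h : ∀ i < m, Near m (x i) (w i)) : q ∈ code w := by
  rcases hq with ⟨q1, hq1, rfl⟩ | ⟨q1, hq1, rfl⟩
  · refine join_even.2 ?_
    rcases hq1 with ⟨n, hn, rfl⟩ | ⟨n, hn, rfl⟩
    · refine join_even.2 ?_
      have hn1 := Nat.unpair_left_le n
      have hN := h n.unpair.1 (by omega)
      simp only [XX, Set.mem_ofPred_eq] at hn ⊢
      rcases hx : x n.unpair.1 with b | s | ⟨s, t, b⟩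
      · rw [hx] at hn; exact hn.elim
      · rw [hx] at hn hN
        rcases hN with h1 | ⟨t, b, h1, -⟩
        · rw [h1]; exact hn
        · rw [h1]; exact Or.inl hn
      · rw [hx] at hn hN
        have h1 : w n.unpair.1 = p s t b := hN
        rw [h1]; exact hn
    · refine join_odd.2 ?_
      have hn1 := Nat.unpair_left_le n
      have hn2 := Nat.unpair_right_le n
      have hN := h n.unpair.1 (by omega)
      simp only [XX, Set.mem_ofPred_eq, Set.mem_compl_iff] at hn ⊢
      intro hc
      apply hn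
      rcases hx : x n.unpair.1 with b | s | ⟨s, t, b⟩
      · rw [hx] at hN
        rcases hN with h1 | ⟨s, t, h1, h2, h3⟩
        · rw [h1] at hc; exact hc
        · rw [h1] at hc
          simp only [Ev] at hc
          cases b <;> simp only [cond_true, cond_false] at hc <;> omega
      · rw [hx] at hN
        rcases hN with h1 | ⟨t, b, h1, h2⟩
        · rw [h1] at hc; exact hc
        · rw [h1] at hc
          simp only [Ev] at hc ⊢
          cases b <;> simp only [cond_true, cond_false] at hc <;> omega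
      · rw [hx] at hN
        have h1 : w n.unpair.1 = p s t b := hN
        rw [h1] at hc; exact hc
  · refine join_odd.2 ?_
    rcases hq1 with ⟨i, hi, rfl⟩ | ⟨i, hi, rfl⟩
    · refine join_even.2 ?_
      have hN := h i (by omega)
      rcases hi with hi | ⟨s, t, hi⟩
      · have hi' : x i = o false := hi
        rw [hi'] at hN
        rcases hN with h1 | ⟨s, t, h1, -⟩
        · exact Or.inl h1
        · exact Or.inr ⟨s, t, h1⟩
      · rw [hi] at hN
        exact Or.inr ⟨s, t, hN⟩
    · refine join_odd.2 ?_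
      have hN := h i (by omega)
      rcases hi with hi | ⟨s, t, hi⟩
      · have hi' : x i = o true := hi
        rw [hi'] at hN
        rcases hN with h1 | ⟨s, t, h1, -⟩
        · exact Or.inl h1
        · exact Or.inr ⟨s, t, h1⟩
      · rw [hi] at hN
        exact Or.inr ⟨s, t, hN⟩

theorem code_ne {x y : ℕ → Pt} {i : ℕ} (h1 : x i = o false) (h2 : y i = o true) :
    code x ≠ code y := by
  intro h
  have h3 : 2 * (2 * i) + 1 ∈ code x := join_odd.2 (join_even.2 (Or.inl h1))
  rw [h] at h3
  rcases join_even.1 (join_odd.1 h3) with h4 | ⟨s, t, h4⟩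
  · have h5 : y i = o false := h4
    rw [h2] at h5; cases h5
  · rw [h2] at h4; cases h4

/-- **Answer to Q1 (positive).** For every represented Urysohn space `Y` there is a doubled
co-d-CEA e-degree which is not a `Y`-degree. -/
theorem result : ∀ (Y : Type u) [TopologicalSpace Y] [T25Space Y] (U : ℕ → Set Y),
    IsTopologicalBasis (Set.range U) →
    ∃ S : Set ℕ, IsDoubled S ∧ ∀ y : Y, ¬ EEqv (Nbase U y) S := by
  intro Y _ _ U hU
  by_contra hcon
  push Not at hcon
  -- the cover
  let X : ℕ → Set (ℕ → Pt) := fun n => {w | ∃ y : Y,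
    Nbase U y = app (Op n.unpair.1) (code w) ∧ code w = app (Op n.unpair.2) (Nbase U y)}
  have hX : ∀ w, ∃ n, w ∈ X n := by
    intro w
    obtain ⟨y, hy1, hy2⟩ := hcon (code w) (isDoubled_code w)
    obtain ⟨i, hi⟩ := ered_iff.1 hy1
    obtain ⟨j, hj⟩ := ered_iff.1 hy2
    refine ⟨Nat.pair i j, y, ?_, ?_⟩
    · rw [Nat.unpair_pair]; exact hi
    · rw [Nat.unpair_pair]; exact hj
  obtain ⟨n, y0, k, hd, x, hx, x', hx', hk, hk', hne, hrel⟩ :=
    mono (o1 := o false) (o2 := o true) (by simp) X hX
  obtain ⟨y, hy1, hy2⟩ := hx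
  obtain ⟨y', hy1', hy2'⟩ := hx'
  -- the two points of `Y` are different
  have hyy : y ≠ y' := by
    intro h
    have h1 : code x = code x' := by rw [hy2, hy2', h]
    obtain ⟨i, hi⟩ := Function.ne_iff.1 hne
    rcases hrel i with h2 | ⟨h2, h3⟩ | ⟨h2, h3⟩
    · exact hi h2
    · exact code_ne h2 h3 h1
    · exact code_ne h3 h2 h1.symm
  obtain ⟨V, hyV, hVo, V', hyV', hVo', hdisj⟩ := exists_open_nhds_disjoint_closure hyy
  -- continuity of the embedding at a point
  have hcont : ∀ (x : ℕ → Pt) (y : Y), Nbase U y = app (Op n.unpair.1) (code x) →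
      ∀ V : Set Y, IsOpen V → y ∈ V → ∃ m0, ∀ m, m0 ≤ m → ∀ w, ∀ v : Y,
        Nbase U v = app (Op n.unpair.1) (code w) → (∀ i < m, Near m (x i) (w i)) → v ∈ V := by
    intro x y hxy V hVo hyV
    obtain ⟨_, ⟨a, rfl⟩, ha1, ha2⟩ := hU.exists_subset_of_mem_open hyV hVo
    have h1 : a ∈ app (Op n.unpair.1) (code x) := by rw [← hxy]; exact ha1
    obtain ⟨u, hu1, hu2⟩ := h1
    refine ⟨u, fun m hm w v hv hN => ha2 ?_⟩
    have h2 : a ∈ Nbase U v := by
      rw [hv]
      exact ⟨u, hu1, fun q hq => code_near (hu2 hq) (by have := D_bound hq; omega) hN⟩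
    exact h2
  obtain ⟨m1, hm1⟩ := hcont x y hy1 V hVo hyV
  obtain ⟨m2, hm2⟩ := hcont x' y' hy1' V' hVo' hyV'
  obtain ⟨m, hm, hmm1, hmm2⟩ : ∃ m, k ≤ m ∧ m1 ≤ m ∧ m2 ≤ m :=
    ⟨k + m1 + m2, by omega, by omega, by omega⟩
  -- the point `z`
  classical
  obtain ⟨z, ⟨v, hv1, hv2⟩, hz⟩ := hd (fun i => if x i = x' i then x i else
      if i < k then x i else l (m + 1)) (by
    intro i hi
    by_cases h : x i = x' i
    · simp only [h, if_true]; rw [← h]; exact hk i hi
    · simp only [h, if_false, hi, if_true]; exact hk i hi) m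
  have hxk : ∀ i < k, x i = x' i := fun i hi => (hk i hi).trans (hk' i hi).symm
  have hz1 : ∀ i < m, x i = x' i → z i = x i := by
    intro i hi h
    rw [hz i hi]; simp [h]
  have hz2 : ∀ i < m, x i ≠ x' i → z i = l (m + 1) := by
    intro i hi h
    rw [hz i hi]
    have h1 : ¬ i < k := fun h2 => h (hxk i h2)
    simp [h, h1]
  have hzk : Cyl y0 k z := by
    intro i hi
    rw [hz1 i (by omega) (hxk i hi)]; exact hk i hi
  -- `v` is in the closure of both neighbourhoods
  have hclos : ∀ (x₁ x₂ : ℕ → Pt) (V : Set Y),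
      (∀ i, x₁ i = x₂ i ↔ x i = x' i) → (∀ i, x i = x' i → x₁ i = x i) →
      (∀ i, x₁ i = x₂ i ∨ (x₁ i = o false ∧ x₂ i = o true) ∨ (x₁ i = o true ∧ x₂ i = o false)) →
      (∀ w, ∀ v : Y, Nbase U v = app (Op n.unpair.1) (code w) →
        (∀ i < m, Near m (x₁ i) (w i)) → v ∈ V) → v ∈ closure V := by
    intro x₁ x₂ V h1 h1' h2 h3
    rw [mem_closure_iff]
    intro O hO hvO
    obtain ⟨j0, hj0⟩ := hcont z v hv1 O hO hvO
    obtain ⟨j, hj, hjm⟩ : ∃ j, j0 ≤ j ∧ m ≤ j := ⟨j0 + m, by omega, by omega⟩
    obtain ⟨u, ⟨v', hv'1, hv'2⟩, hu⟩ := hd (fun i => if i < m ∧ x i ≠ x' i then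
        p (m + 1) (j + 1) (if x₁ i = o false then false else true) else z i) (by
      intro i hi
      have h4 : ¬ (i < m ∧ x i ≠ x' i) := fun h => h.2 (hxk i hi)
      simp only [h4, if_false]
      exact hzk i hi) j
    refine ⟨v', hj0 j hj u v' hv'1 ?_, h3 u v' hv'1 ?_⟩
    · intro i hi
      rw [hu i hi]
      dsimp only
      by_cases h4 : i < m ∧ x i ≠ x' i
      · rw [if_pos h4, hz2 i h4.1 h4.2]
        exact Or.inr ⟨_, _, rfl, by omega⟩
      · rw [if_neg h4]; exact near_refl _ _
    · intro i hi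
      rw [hu i (by omega)]
      dsimp only
      by_cases h4 : x i = x' i
      · have h5 : ¬ (i < m ∧ x i ≠ x' i) := fun h => h.2 h4
        rw [if_neg h5, hz1 i hi h4, h1' i h4]
        exact near_refl _ _
      · rw [if_pos ⟨hi, h4⟩]
        rcases h2 i with h5 | ⟨h5, -⟩ | ⟨h5, -⟩
        · exact absurd ((h1 i).1 h5) h4
        · rw [h5]
          exact Or.inr ⟨m + 1, j + 1, by simp, by omega, by omega⟩
        · rw [h5]
          exact Or.inr ⟨m + 1, j + 1, by simp, by omega, by omega⟩
  have hc1 : v ∈ closure V := hclos x x' V (fun i => Iff.rfl) (fun i h => rfl)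
    (fun i => by
      rcases hrel i with h | h | h
      exacts [Or.inl h, Or.inr (Or.inl h), Or.inr (Or.inr h)])
    (fun w v hv hN => hm1 m hmm1 w v hv hN)
  have hc2 : v ∈ closure V' := hclos x' x V' (fun i => ⟨fun h => h.symm, fun h => h.symm⟩)
    (fun i h => h.symm)
    (fun i => by
      rcases hrel i with h | ⟨h, h'⟩ | ⟨h, h'⟩
      exacts [Or.inl h.symm, Or.inr (Or.inr ⟨h', h⟩), Or.inr (Or.inl ⟨h', h⟩)])
    (fun w v hv hN => hm2 m hmm2 w v hv hN)
  exact Set.disjoint_left.1 hdisj hc1 hc2

end Pool.Agent.Results.MP_ab6b4f_lc.Urysohn
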